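import Pool.Agent.AGE.ASMF
import Pool.Agent.Helper87.AG.Conn

/-!
Ageev's conjecture on equivariant maps between free Menger compacta, negative direction, source
dimension one above the target dimension: for every `n ≥ 2` and every prime `p`, a compact
metrizable free `A_p`-space whose orbit space has dimension at most `n + 1`, for example the
Menger compactum of dimension `n + 1` with such an action, has a continuous equivariant map onto
a compact metrizable free `A_p`-space of dimension at most `n`.
-/

set_option autoImplicit false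

namespace Pool.Agent.Results.MP_b5674c_gt.DimensionDrop

open TopologicalSpace

/-- The `k`-dimensional Menger compactum, in its standard model: the points of the cube
`[0,1]^(2k+1)` such that at every level `j` at most `k` of the coordinates `x i` have `3^j x i`
strictly inside the middle third of a unit interval. -/
def MengerCompactum (k : ℕ) : Set (Fin (2 * k + 1) → ℝ) :=
  {x | (∀ i, x i ∈ Set.Icc (0:ℝ) 1) ∧
    ∀ j : ℕ, {i | 1/3 < Int.fract ((3:ℝ) ^ j * x i) ∧
      Int.fract ((3:ℝ) ^ j * x i) < 2/3}.ncard ≤ k}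

/-- Covering dimension at most `d`: every finite open cover has a finite open refinement of order
at most `d + 1`. -/
def CovDimLE (B : Type) [TopologicalSpace B] (d : ℕ) : Prop :=
  ∀ (I : Type) (_ : Finite I) (U : I → Set B), (∀ i, IsOpen (U i)) → (⋃ i, U i) = Set.univ →
    ∃ (J : Type) (_ : Finite J) (W : J → Set B), (∀ j, IsOpen (W j)) ∧ (⋃ j, W j) = Set.univ ∧
      (∀ j, ∃ i, W j ⊆ U i) ∧ ∀ b, {j | b ∈ W j}.ncard ≤ d + 1

/-- Free `A_p`-spaces with orbit space of dimension at most `n + 1` map equivariantly onto free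
`A_p`-spaces of dimension at most `n`, for all `n ≥ 2`; the case of the Menger compactum of
dimension `n + 1`. -/
theorem result :
    (∀ (p : ℕ) [Fact p.Prime] (n : ℕ), 2 ≤ n →
      ∀ (X : Type) [TopologicalSpace X] [CompactSpace X] [MetrizableSpace X]
        [MulAction (Multiplicative ℤ_[p]) X],
      ContinuousSMul (Multiplicative ℤ_[p]) X →
      (∀ (g : Multiplicative ℤ_[p]) (x : X), g • x = x → g = 1) →
      CovDimLE (MulAction.orbitRel.Quotient (Multiplicative ℤ_[p]) X) (n + 1) →
      ∃ (Y : Type) (_ : TopologicalSpace Y) (_ : CompactSpace Y) (_ : MetrizableSpace Y)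
        (_ : MulAction (Multiplicative ℤ_[p]) Y),
        ContinuousSMul (Multiplicative ℤ_[p]) Y ∧
        (∀ (g : Multiplicative ℤ_[p]) (y : Y), g • y = y → g = 1) ∧ CovDimLE Y n ∧
        ∃ f : X → Y, Continuous f ∧ Function.Surjective f ∧
          ∀ (g : Multiplicative ℤ_[p]) (x : X), f (g • x) = g • f x) ∧
    (∀ (p : ℕ) [Fact p.Prime] (n : ℕ), 2 ≤ n →
      ∀ [MulAction (Multiplicative ℤ_[p]) (MengerCompactum (n + 1))],
      ContinuousSMul (Multiplicative ℤ_[p]) (MengerCompactum (n + 1)) →
      (∀ (g : Multiplicative ℤ_[p]) (x : MengerCompactum (n + 1)), g • x = x → g = 1) →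
      CovDimLE (MulAction.orbitRel.Quotient (Multiplicative ℤ_[p]) (MengerCompactum (n + 1)))
        (n + 1) →
      ∃ (Y : Type) (_ : TopologicalSpace Y) (_ : CompactSpace Y) (_ : MetrizableSpace Y)
        (_ : MulAction (Multiplicative ℤ_[p]) Y),
        ContinuousSMul (Multiplicative ℤ_[p]) Y ∧ ConnectedSpace Y ∧ LocallyConnectedSpace Y ∧
        (∀ (g : Multiplicative ℤ_[p]) (y : Y), g • y = y → g = 1) ∧ CovDimLE Y n ∧
        ∃ f : MengerCompactum (n + 1) → Y, Continuous f ∧ Function.Surjective f ∧
          ∀ (g : Multiplicative ℤ_[p]) (x : MengerCompactum (n + 1)), f (g • x) = g • f x) := by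
  have key : ∀ (p : ℕ) [Fact p.Prime] (n : ℕ), 2 ≤ n →
      ∀ (X : Type) [TopologicalSpace X] [CompactSpace X] [MetrizableSpace X]
        [MulAction (Multiplicative ℤ_[p]) X],
      ContinuousSMul (Multiplicative ℤ_[p]) X →
      (∀ (g : Multiplicative ℤ_[p]) (x : X), g • x = x → g = 1) →
      CovDimLE (MulAction.orbitRel.Quotient (Multiplicative ℤ_[p]) X) (n + 1) →
      ∃ (Y : Type) (_ : TopologicalSpace Y) (_ : CompactSpace Y) (_ : MetrizableSpace Y)
        (_ : MulAction (Multiplicative ℤ_[p]) Y),
        ContinuousSMul (Multiplicative ℤ_[p]) Y ∧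
        (∀ (g : Multiplicative ℤ_[p]) (y : Y), g • y = y → g = 1) ∧ CovDimLE Y n ∧
        ∃ f : X → Y, Continuous f ∧ Function.Surjective f ∧
          ∀ (g : Multiplicative ℤ_[p]) (x : X), f (g • x) = g • f x := by
    intro p _ n hn X _ _ _ _ hX hfree hdim
    obtain ⟨Y, t1, t2, t3, t4, t5, h1, h2, h3⟩ := AGE.main p n hn hfree hdim
    exact ⟨Y, t1, t2, t3, t4, t5, h1, h2, h3⟩
  refine ⟨key, ?_⟩
  intro p _ n hn _ hX hfree hdim
  haveI : CompactSpace (MengerCompactum (n + 1)) :=
    isCompact_iff_compactSpace.mp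
      (Helper87.AG.menger_isCompact (ι := Fin (2 * (n + 1) + 1)) (n + 1))
  haveI : ConnectedSpace (MengerCompactum (n + 1)) :=
    Helper87.AG.menger_connected (ι := Fin (2 * (n + 1) + 1)) (k := n + 1) (by omega)
  haveI : LocallyConnectedSpace (MengerCompactum (n + 1)) :=
    Helper87.AG.menger_locallyConnected (ι := Fin (2 * (n + 1) + 1)) (k := n + 1) (by omega)
  obtain ⟨Y, t1, t2, t3, t4, t5, h1, h2, f, hf, hs, he⟩ :=
    key p n hn (MengerCompactum (n + 1)) hX hfree hdim
  have hq : Topology.IsQuotientMap f := (hf.isClosedMap).isQuotientMap hf hs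
  exact ⟨Y, t1, t2, t3, t4, t5, hs.connectedSpace hf, hq.isCoinducing.locallyConnectedSpace, h1,
    h2, f, hf, hs, he⟩

end Pool.Agent.Results.MP_b5674c_gt.DimensionDrop
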